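import Pool.Agent.K1H51.DL.Stm

/-! # Piece DL V1: `S_VAR` from `S_SUP`, `S_OP`, `S_L4` -/

set_option autoImplicit false

open MeasureTheory Set Filter Topology
open scoped ENNReal
open Complex (I)
open Pool.Agent.Y969.GP (ff)
open Pool.Agent.K1H51.DL

namespace Pool.Agent.K1H9.DL

/-! ### preliminaries -/

theorem ff_cont : Continuous ff := by
  unfold ff
  have : Continuous fun u : ℝ => riemannZeta (1 / 2 + I * u) := by
    rw [continuous_iff_continuousAt]
    intro u
    have h1 : (1 / 2 + I * u : ℂ) ≠ 1 := by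
      intro h
      have := congrArg Complex.re h
      simp at this
    have h2 := (differentiableAt_riemannZeta h1).continuousAt
    exact ContinuousAt.comp (f := fun u : ℝ => (1 / 2 + I * u : ℂ)) h2 (by fun_prop)
  exact this.norm.pow 2

theorem ff_nonneg (u : ℝ) : 0 ≤ ff u := by
  unfold ff
  positivity

theorem Mz_meas : Measurable Mz := by
  unfold Mz
  exact (Real.measurable_log.comp (measurable_id.div_const _)).add_const _

theorem Mz_contAt {u : ℝ} (hu : 0 < u) : ContinuousAt Mz u := by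
  unfold Mz
  have h : u / (2 * Real.pi) ≠ 0 := (div_pos hu Real.two_pi_pos).ne'
  exact ((continuousAt_id.div_const _).log h).add continuousAt_const

theorem Mz_bound {a b η : ℝ} (ha : 0 < a) (hη : 0 < η) : ∃ C : ℝ, 0 < C ∧
    ∀ x ∈ Icc a b, ∀ t : ℝ, 1 ≤ t → |Mz (x * t)| ≤ C * t ^ η := by
  refine ⟨|Real.log a| + |Real.log b| + |Real.log (2 * Real.pi)| + 1 / η +
    2 * |Real.eulerMascheroniConstant| + 1, by positivity, fun x hx t ht => ?_⟩
  have hx0 : 0 < x := ha.trans_le hx.1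
  have ht0 : 0 < t := by linarith
  have h1 : Real.log (x * t / (2 * Real.pi)) = Real.log x + Real.log t - Real.log (2 * Real.pi) := by
    rw [Real.log_div (mul_pos hx0 ht0).ne' Real.two_pi_pos.ne', Real.log_mul hx0.ne' ht0.ne']
  have h2 : |Real.log x| ≤ |Real.log a| + |Real.log b| := by
    have e1 := Real.log_le_log ha hx.1
    have e2 := Real.log_le_log hx0 hx.2
    rw [abs_le]
    constructor
    · linarith [neg_abs_le (Real.log a), abs_nonneg (Real.log b)]
    · linarith [le_abs_self (Real.log b), abs_nonneg (Real.log a)]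
  have h3 : |Real.log t| ≤ 1 / η * t ^ η := by
    rw [abs_of_nonneg (Real.log_nonneg ht)]
    have := Real.log_le_rpow_div ht0.le hη
    rw [div_mul_eq_mul_div, one_mul]
    exact this
  have h4 : 1 ≤ t ^ η := Real.one_le_rpow ht hη.le
  unfold Mz
  rw [h1]
  have h5 : |Real.log x + Real.log t - Real.log (2 * Real.pi) + 2 * Real.eulerMascheroniConstant| ≤
      |Real.log x| + |Real.log t| + |Real.log (2 * Real.pi)| + 2 * |Real.eulerMascheroniConstant| := by
    have e1 := abs_add_le (Real.log x + Real.log t - Real.log (2 * Real.pi))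
      (2 * Real.eulerMascheroniConstant)
    have e2 := abs_sub (Real.log x + Real.log t) (Real.log (2 * Real.pi))
    have e3 := abs_add_le (Real.log x) (Real.log t)
    have e4 : |2 * Real.eulerMascheroniConstant| = 2 * |Real.eulerMascheroniConstant| := by
      rw [abs_mul, abs_of_nonneg (by norm_num : (0 : ℝ) ≤ 2)]
    linarith
  have a1 := abs_nonneg (Real.log a)
  have a2 := abs_nonneg (Real.log b)
  have a3 := abs_nonneg (Real.log (2 * Real.pi))
  have a4 := abs_nonneg Real.eulerMascheroniConstant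
  nlinarith

/-! ### boxes -/

/-- the box `[a,b]^K` -/
abbrev Bx (K : ℕ) (a b : ℝ) : Set (Fin K → ℝ) := Icc (fun _ => a) (fun _ => b)

theorem split_prod {K : ℕ} {a b : ℝ} (g : (Fin (K + 1) → ℝ) → ℝ≥0∞) :
    ∫⁻ α in Bx (K + 1) a b, g α = ∫⁻ p in Icc a b ×ˢ Bx K a b,
      g (Fin.cons p.1 p.2 : Fin (K + 1) → ℝ) := by
  have hmp := (volume_preserving_piFinSuccAbove (fun _ : Fin (K + 1) => ℝ) 0).symm
    (MeasurableEquiv.piFinSuccAbove (fun _ : Fin (K + 1) => ℝ) 0)
  have h1 := hmp.setLIntegral_comp_preimage_emb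
    (MeasurableEquiv.piFinSuccAbove (fun _ : Fin (K + 1) => ℝ) 0).symm.measurableEmbedding g
    (Bx (K + 1) a b)
  rw [← h1]
  have h2 : (MeasurableEquiv.piFinSuccAbove (fun _ : Fin (K + 1) => ℝ) 0).symm ⁻¹'
      (Bx (K + 1) a b) = (Icc a b ×ˢ Bx K a b : Set (ℝ × (Fin K → ℝ))) := by
    ext ⟨x, f⟩
    simp only [mem_preimage, mem_prod]
    exact Fin.insertNth_mem_Icc (i := (0 : Fin (K + 1))) (x := x) (p := f)
      (q₁ := fun _ => a) (q₂ := fun _ => b)
  rw [h2]
  refine lintegral_congr fun p => ?_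
  congr 1
  exact Fin.insertNth_zero (α := fun _ => ℝ) p.1 p.2

theorem cons_meas {K : ℕ} : Measurable fun p : ℝ × (Fin K → ℝ) =>
    (Fin.cons p.1 p.2 : Fin (K + 1) → ℝ) := by
  refine measurable_pi_lambda _ fun j => ?_
  refine Fin.cases ?_ (fun i => ?_) j
  · simp only [Fin.cons_zero]
    exact measurable_fst
  · simp only [Fin.cons_succ]
    exact (measurable_pi_apply i).comp measurable_snd

theorem split1 {K : ℕ} {a b : ℝ} {g : (Fin (K + 1) → ℝ) → ℝ≥0∞} (hg : Measurable g) :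
    ∫⁻ α in Bx (K + 1) a b, g α = ∫⁻ x in Icc a b, ∫⁻ α' in Bx K a b,
      g (Fin.cons x α' : Fin (K + 1) → ℝ) := by
  rw [split_prod, Measure.volume_eq_prod, ← Measure.prod_restrict, lintegral_prod]
  exact (hg.comp cons_meas).aemeasurable

theorem split2 {K : ℕ} {a b : ℝ} {g : (Fin (K + 1) → ℝ) → ℝ≥0∞} (hg : Measurable g) :
    ∫⁻ α in Bx (K + 1) a b, g α = ∫⁻ α' in Bx K a b, ∫⁻ x in Icc a b,
      g (Fin.cons x α' : Fin (K + 1) → ℝ) := by
  rw [split_prod, Measure.volume_eq_prod, ← Measure.prod_restrict, lintegral_prod_symm]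
  exact (hg.comp cons_meas).aemeasurable

/-! ### the fourth moments over a box -/

/-- the product of the squares -/
noncomputable def Q {K : ℕ} (α : Fin K → ℝ) (t : ℝ) : ℝ := ∏ j, ff (α j * t) ^ 2

theorem Q_nonneg {K : ℕ} (α : Fin K → ℝ) (t : ℝ) : 0 ≤ Q α t :=
  Finset.prod_nonneg fun _ _ => by positivity

theorem Q_cons {K : ℕ} (x : ℝ) (α : Fin K → ℝ) (t : ℝ) :
    Q (Fin.cons x α : Fin (K + 1) → ℝ) t = ff (x * t) ^ 2 * Q α t := by
  simp [Q, Fin.prod_univ_succ]

theorem mul_meas {K : ℕ} (j : Fin K) : Measurable fun p : (Fin K → ℝ) × ℝ => p.1 j * p.2 := by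
  have h : Measurable fun p : (Fin K → ℝ) × ℝ => p.1 j :=
    (measurable_pi_apply j).comp measurable_fst
  exact h.mul measurable_snd

theorem Q_meas {K : ℕ} : Measurable fun p : (Fin K → ℝ) × ℝ => Q p.1 p.2 := by
  unfold Q
  refine Finset.measurable_prod _ fun j _ => ?_
  have h : Measurable fun p : (Fin K → ℝ) × ℝ => ff (p.1 j * p.2) :=
    ff_cont.measurable.comp (mul_meas j)
  exact h.pow_const 2

theorem pair_meas {K : ℕ} (t : ℝ) : Measurable fun α : Fin K → ℝ => (α, t) :=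
  measurable_prodMk_right

theorem Q_meas_left {K : ℕ} (t : ℝ) : Measurable fun α : Fin K → ℝ => Q α t := by
  have h := Measurable.comp (g := fun p : (Fin K → ℝ) × ℝ => Q p.1 p.2)
    (f := fun α : Fin K → ℝ => (α, t)) Q_meas (pair_meas t)
  exact h

theorem ff_sq_meas (t : ℝ) : Measurable fun x : ℝ => ENNReal.ofReal (ff (x * t) ^ 2) := by
  have h : Continuous fun x : ℝ => ff (x * t) ^ 2 :=
    (ff_cont.comp (continuous_id.mul continuous_const)).pow 2
  exact h.measurable.ennreal_ofReal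

theorem l4_one (h3 : S_L4) {a b ε : ℝ} (ha : 0 < a) (hab : a < b) (hε : 0 < ε) :
    ∃ C : ℝ, 0 < C ∧ ∀ t : ℝ, 1 ≤ t →
      ∫⁻ x in Icc a b, ENNReal.ofReal (ff (x * t) ^ 2) ≤ ENNReal.ofReal (C * t ^ ε) := by
  obtain ⟨C, hC, h⟩ := h3 a b ε ha hab hε
  refine ⟨C, hC, fun t ht => ?_⟩
  have h1 := h t ht
  have hc : Continuous fun x : ℝ => ff (x * t) ^ 2 := (ff_cont.comp (by fun_prop)).pow 2
  have h2 : IntegrableOn (fun x : ℝ => ff (x * t) ^ 2) (Icc a b) :=
    hc.continuousOn.integrableOn_compact isCompact_Icc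
  rw [← ofReal_integral_eq_lintegral_ofReal h2 (Eventually.of_forall fun x => by positivity)]
  refine ENNReal.ofReal_le_ofReal ?_
  rw [intervalIntegral.integral_of_le hab.le, ← integral_Icc_eq_integral_Ioc] at h1
  exact h1

theorem l4K (h3 : S_L4) {a b : ℝ} (ha : 0 < a) (hab : a < b) (K : ℕ) : ∀ ε : ℝ, 0 < ε →
    ∃ C : ℝ, 0 < C ∧ ∀ t : ℝ, 1 ≤ t →
      ∫⁻ α in Bx K a b, ENNReal.ofReal (Q α t) ≤ ENNReal.ofReal (C * t ^ ε) := by
  induction K with
  | zero =>
    intro ε hε
    refine ⟨1, one_pos, fun t ht => ?_⟩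
    have h1 : ∀ α : Fin 0 → ℝ, ENNReal.ofReal (Q α t) = 1 := fun α => by simp [Q]
    simp_rw [h1]
    rw [lintegral_const, one_mul, Measure.restrict_apply_univ, Real.volume_Icc_pi]
    simp only [Finset.univ_eq_empty, Finset.prod_empty, one_mul]
    rw [← ENNReal.ofReal_one]
    exact ENNReal.ofReal_le_ofReal (Real.one_le_rpow ht hε.le)
  | succ K ih =>
    intro ε hε
    obtain ⟨C, hC, h⟩ := ih (ε / 2) (half_pos hε)
    obtain ⟨C', hC', h'⟩ := l4_one h3 ha hab (half_pos hε)
    refine ⟨C' * C, by positivity, fun t ht => ?_⟩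
    rw [split1 ((Q_meas_left t).ennreal_ofReal)]
    simp_rw [Q_cons]
    have h1 : ∀ x : ℝ, ∫⁻ α' in Bx K a b, ENNReal.ofReal (ff (x * t) ^ 2 * Q α' t) =
        ENNReal.ofReal (ff (x * t) ^ 2) * ∫⁻ α' in Bx K a b, ENNReal.ofReal (Q α' t) := by
      intro x
      rw [← lintegral_const_mul _ (Q_meas_left t).ennreal_ofReal]
      refine lintegral_congr fun α => ?_
      rw [ENNReal.ofReal_mul (by positivity)]
    simp_rw [h1]
    rw [lintegral_mul_const _ (ff_sq_meas t)]
    have ht0 : 0 < t := by linarith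
    have e1 : C' * C * t ^ ε = C' * t ^ (ε / 2) * (C * t ^ (ε / 2)) := by
      have : t ^ ε = t ^ (ε / 2) * t ^ (ε / 2) := by
        rw [← Real.rpow_add ht0]
        congr 1
        ring
      rw [this]
      ring
    rw [e1, ENNReal.ofReal_mul (by positivity)]
    exact mul_le_mul' (h' t ht) (h t ht)

/-! ### the difference of the products -/

theorem dP_succ {K : ℕ} (α : Fin (K + 1) → ℝ) (t : ℝ) :
    dP α t = (ff (α 0 * t) - Mz (α 0 * t)) * ∏ j : Fin K, ff (α j.succ * t) +
      Mz (α 0 * t) * dP (fun j : Fin K => α j.succ) t := by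
  unfold dP
  rw [Fin.prod_univ_succ, Fin.prod_univ_succ]
  ring

theorem dP_meas {K : ℕ} : Measurable fun p : (Fin K → ℝ) × ℝ => dP p.1 p.2 := by
  unfold dP
  refine Measurable.sub ?_ ?_
  · refine Finset.measurable_prod _ fun j _ => ?_
    exact ff_cont.measurable.comp (mul_meas j)
  · refine Finset.measurable_prod _ fun j _ => ?_
    exact Mz_meas.comp (mul_meas j)

theorem dP_meas_left {K : ℕ} (t : ℝ) : Measurable fun α : Fin K → ℝ => dP α t := by
  have h := Measurable.comp (g := fun p : (Fin K → ℝ) × ℝ => dP p.1 p.2)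
    (f := fun α : Fin K → ℝ => (α, t)) dP_meas (pair_meas t)
  exact h

theorem rpow_half {t ε : ℝ} (ht : 1 ≤ t) : t ^ ε = t ^ (ε / 2) * t ^ (ε / 2) := by
  rw [← Real.rpow_add (by linarith)]
  congr 1
  ring

theorem Mz_sq {a b ε : ℝ} (ha : 0 < a) (hε : 0 < ε) : ∃ C : ℝ, 0 < C ∧
    ∀ x ∈ Icc a b, ∀ t : ℝ, 1 ≤ t → Mz (x * t) ^ 2 ≤ C * t ^ ε := by
  obtain ⟨C, hC, h⟩ := Mz_bound (b := b) ha (half_pos hε)
  refine ⟨C ^ 2, by positivity, fun x hx t ht => ?_⟩
  have h1 := h x hx t ht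
  calc Mz (x * t) ^ 2 = |Mz (x * t)| ^ 2 := (sq_abs _).symm
    _ ≤ (C * t ^ (ε / 2)) ^ 2 := pow_le_pow_left₀ (abs_nonneg _) h1 2
    _ = C ^ 2 * t ^ ε := by rw [rpow_half ht (ε := ε)]; ring

theorem varA (h3 : S_L4) {a b : ℝ} (ha : 0 < a) (hab : a < b) (K : ℕ) : ∀ ε : ℝ, 0 < ε →
    ∃ C : ℝ, 0 < C ∧ ∀ t : ℝ, 1 ≤ t →
      ∫⁻ α in Bx K a b, ENNReal.ofReal (dP α t ^ 2) ≤ ENNReal.ofReal (C * t ^ ε) := by
  induction K with
  | zero =>
    intro ε hε
    refine ⟨1, one_pos, fun t _ => ?_⟩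
    have h1 : ∀ α : Fin 0 → ℝ, ENNReal.ofReal (dP α t ^ 2) = 0 := fun α => by simp [dP]
    simp_rw [h1]
    rw [lintegral_zero]
    exact bot_le
  | succ K ih =>
    intro ε hε
    obtain ⟨C, hC, h⟩ := ih (ε / 2) (half_pos hε)
    obtain ⟨C', hC', h'⟩ := l4_one h3 ha hab (half_pos hε)
    obtain ⟨C4, hC4, h4⟩ := l4K h3 ha hab K (ε / 2) (half_pos hε)
    obtain ⟨CM, hCM, hM⟩ := Mz_sq (b := b) ha (half_pos hε)
    refine ⟨(4 * C' + 4 * CM * (b - a)) * C4 + 2 * CM * (b - a) * C, by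
      have : 0 < b - a := by linarith
      positivity, fun t ht => ?_⟩
    have ht0 : 0 < t := by linarith
    have hba : 0 < b - a := by linarith
    rw [split1 (((dP_meas_left t).pow_const 2).ennreal_ofReal)]
    have hpt : ∀ (x : ℝ) (α' : Fin K → ℝ),
        ENNReal.ofReal (dP (Fin.cons x α' : Fin (K + 1) → ℝ) t ^ 2) ≤
          ENNReal.ofReal (4 * ff (x * t) ^ 2 + 4 * Mz (x * t) ^ 2) * ENNReal.ofReal (Q α' t) +
            ENNReal.ofReal (2 * Mz (x * t) ^ 2) * ENNReal.ofReal (dP α' t ^ 2) := by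
      intro x α'
      rw [← ENNReal.ofReal_mul (by positivity), ← ENNReal.ofReal_mul (by positivity),
        ← ENNReal.ofReal_add (mul_nonneg (by positivity) (Q_nonneg _ _)) (by positivity)]
      refine ENNReal.ofReal_le_ofReal ?_
      rw [dP_succ]
      simp only [Fin.cons_zero, Fin.cons_succ]
      have hQ : Q α' t = (∏ j : Fin K, ff (α' j * t)) ^ 2 := by
        rw [Q, Finset.prod_pow]
      rw [hQ]
      set p := ∏ j : Fin K, ff (α' j * t)
      set g := ff (x * t)
      set m := Mz (x * t)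
      have e1 : ((g - m) * p + m * dP α' t) ^ 2 ≤ 2 * ((g - m) * p) ^ 2 + 2 * (m * dP α' t) ^ 2 := by
        nlinarith [sq_nonneg ((g - m) * p - m * dP α' t)]
      have e2 : ((g - m) * p) ^ 2 ≤ (2 * g ^ 2 + 2 * m ^ 2) * p ^ 2 := by
        rw [mul_pow]
        refine mul_le_mul_of_nonneg_right ?_ (sq_nonneg _)
        nlinarith [sq_nonneg (g + m)]
      nlinarith
    have hm1 : Measurable fun α' : Fin K → ℝ => ENNReal.ofReal (Q α' t) :=
      (Q_meas_left t).ennreal_ofReal
    have hm2 : Measurable fun α' : Fin K → ℝ => ENNReal.ofReal (dP α' t ^ 2) :=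
      ((dP_meas_left t).pow_const 2).ennreal_ofReal
    have hin : ∀ x ∈ Icc a b, ∫⁻ α' in Bx K a b,
        ENNReal.ofReal (dP (Fin.cons x α' : Fin (K + 1) → ℝ) t ^ 2) ≤
          ENNReal.ofReal ((4 * C4 * t ^ (ε / 2)) * ff (x * t) ^ 2 +
            (4 * CM * C4 + 2 * CM * C) * t ^ ε) := by
      intro x hx
      have hb := hM x hx t ht
      calc ∫⁻ α' in Bx K a b, ENNReal.ofReal (dP (Fin.cons x α' : Fin (K + 1) → ℝ) t ^ 2)
          ≤ ∫⁻ α' in Bx K a b, (ENNReal.ofReal (4 * ff (x * t) ^ 2 + 4 * Mz (x * t) ^ 2) *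
              ENNReal.ofReal (Q α' t) +
              ENNReal.ofReal (2 * Mz (x * t) ^ 2) * ENNReal.ofReal (dP α' t ^ 2)) :=
            lintegral_mono fun α' => hpt x α'
        _ = ENNReal.ofReal (4 * ff (x * t) ^ 2 + 4 * Mz (x * t) ^ 2) *
              (∫⁻ α' in Bx K a b, ENNReal.ofReal (Q α' t)) +
              ENNReal.ofReal (2 * Mz (x * t) ^ 2) *
                ∫⁻ α' in Bx K a b, ENNReal.ofReal (dP α' t ^ 2) := by
            rw [lintegral_add_left (hm1.const_mul _), lintegral_const_mul _ hm1,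
              lintegral_const_mul _ hm2]
        _ ≤ ENNReal.ofReal (4 * ff (x * t) ^ 2 + 4 * Mz (x * t) ^ 2) *
              ENNReal.ofReal (C4 * t ^ (ε / 2)) +
              ENNReal.ofReal (2 * Mz (x * t) ^ 2) * ENNReal.ofReal (C * t ^ (ε / 2)) := by
            gcongr
            · exact h4 t ht
            · exact h t ht
        _ ≤ _ := by
            rw [← ENNReal.ofReal_mul (by positivity), ← ENNReal.ofReal_mul (by positivity),
              ← ENNReal.ofReal_add (by positivity) (by positivity)]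
            refine ENNReal.ofReal_le_ofReal ?_
            have e3 : Mz (x * t) ^ 2 * t ^ (ε / 2) ≤ CM * t ^ ε := by
              rw [rpow_half ht (ε := ε), ← mul_assoc]
              exact mul_le_mul_of_nonneg_right hb (by positivity)
            have e4 := mul_le_mul_of_nonneg_left e3 (by positivity : (0 : ℝ) ≤ 4 * C4)
            have e5 := mul_le_mul_of_nonneg_left e3 (by positivity : (0 : ℝ) ≤ 2 * C)
            nlinarith
    calc ∫⁻ x in Icc a b, ∫⁻ α' in Bx K a b,
          ENNReal.ofReal (dP (Fin.cons x α' : Fin (K + 1) → ℝ) t ^ 2)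
        ≤ ∫⁻ x in Icc a b, ENNReal.ofReal ((4 * C4 * t ^ (ε / 2)) * ff (x * t) ^ 2 +
            (4 * CM * C4 + 2 * CM * C) * t ^ ε) :=
          setLIntegral_mono' measurableSet_Icc fun x hx => hin x hx
      _ = ∫⁻ x in Icc a b, (ENNReal.ofReal (4 * C4 * t ^ (ε / 2)) * ENNReal.ofReal (ff (x * t) ^ 2) +
            ENNReal.ofReal ((4 * CM * C4 + 2 * CM * C) * t ^ ε)) := by
          refine lintegral_congr fun x => ?_
          rw [ENNReal.ofReal_add (by positivity) (by positivity),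
            ENNReal.ofReal_mul (by positivity : (0 : ℝ) ≤ 4 * C4 * t ^ (ε / 2))]
      _ = ENNReal.ofReal (4 * C4 * t ^ (ε / 2)) * (∫⁻ x in Icc a b, ENNReal.ofReal (ff (x * t) ^ 2)) +
            ENNReal.ofReal ((4 * CM * C4 + 2 * CM * C) * t ^ ε) * ENNReal.ofReal (b - a) := by
          rw [lintegral_add_left ((ff_sq_meas t).const_mul _), lintegral_const_mul _ (ff_sq_meas t),
            lintegral_const, Measure.restrict_apply_univ, Real.volume_Icc]
      _ ≤ ENNReal.ofReal (4 * C4 * t ^ (ε / 2)) * ENNReal.ofReal (C' * t ^ (ε / 2)) +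
            ENNReal.ofReal ((4 * CM * C4 + 2 * CM * C) * t ^ ε) * ENNReal.ofReal (b - a) := by
          gcongr
          exact h' t ht
      _ = _ := by
          rw [← ENNReal.ofReal_mul (by positivity), ← ENNReal.ofReal_mul (by positivity),
              ← ENNReal.ofReal_add (by positivity) (by positivity)]
          congr 1
          rw [rpow_half ht (ε := ε)]
          ring

/-! ### the operator bound for shorter ranges, as a lower integral -/

theorem ofReal_integral_le {X : Type*} [MeasurableSpace X] {μ : Measure X} {f : X → ℝ}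
    (hf : ∀ x, 0 ≤ f x) (hm : Measurable f) :
    ENNReal.ofReal (∫ x, f x ∂μ) ≤ ∫⁻ x, ENNReal.ofReal (f x) ∂μ := by
  rw [integral_eq_lintegral_of_nonneg_ae (Eventually.of_forall hf) hm.aestronglyMeasurable]
  exact ENNReal.ofReal_toReal_le

theorem meas_int {X : Type*} [MeasurableSpace X] {f : X → ℝ → ℂ}
    (hf : Measurable (Function.uncurry f)) {T S : ℝ} (h : T ≤ S) :
    Measurable fun x => ∫ t in T..S, f x t := by
  have h1 : (fun x => ∫ t in T..S, f x t) = fun x => ∫ t in Ioc T S, f x t := by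
    funext x
    exact intervalIntegral.integral_of_le h
  rw [h1]
  exact (StronglyMeasurable.integral_prod_right (ν := volume.restrict (Ioc T S))
    hf.stronglyMeasurable).measurable

/-- square integrable functions on a bounded interval are integrable -/
theorem int_of_sq {F : ℝ → ℂ} (hF : Measurable F) {T S : ℝ}
    (h : IntegrableOn (fun t => ‖F t‖ ^ 2) (Icc T S)) : IntegrableOn F (Icc T S) := by
  have h1 : IntegrableOn (fun t => 1 + ‖F t‖ ^ 2) (Icc T S) :=
    (integrableOn_const (by rw [Real.volume_Icc]; exact ENNReal.ofReal_ne_top)).add h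
  refine Integrable.mono' h1 hF.aestronglyMeasurable (Eventually.of_forall fun t => ?_)
  nlinarith [sq_nonneg (‖F t‖ - 1)]

/-- products with bounded measurable functions -/
theorem int_mul {F : ℝ → ℂ} (hF : Measurable F) {T T' : ℝ}
    (h : IntegrableOn (fun t => ‖F t‖ ^ 2) (Icc T T')) {g : ℝ → ℝ} (hg : Measurable g) {B : ℝ}
    (hB : ∀ t ∈ Icc T T', |g t| ≤ B) {S : ℝ} (h1 : T ≤ S) (h2 : S ≤ T') :
    IntervalIntegrable (fun t => F t * (g t : ℂ)) volume T S := by
  rw [intervalIntegrable_iff_integrableOn_Icc_of_le h1]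
  have h3 : IntegrableOn F (Icc T S) :=
    (int_of_sq hF h).mono_set (Icc_subset_Icc_right h2)
  have h4 : IntegrableOn (fun t => (g t : ℂ) * F t) (Icc T S) := by
    refine Integrable.bdd_mul (c := B) h3 (Complex.measurable_ofReal.comp hg).aestronglyMeasurable ?_
    refine (ae_restrict_iff' measurableSet_Icc).mpr (Eventually.of_forall fun t ht => ?_)
    rw [Complex.norm_real]
    exact hB t ⟨ht.1, ht.2.trans h2⟩
  refine h4.congr (Eventually.of_forall fun t => ?_)
  simp only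
  ring

theorem dif_bound {a b T T' : ℝ} (ha : 0 < a) (hT : 0 < T) : ∃ B : ℝ, ∀ x ∈ Icc a b,
    ∀ t ∈ Icc T T', |ff (x * t) - Mz (x * t)| ≤ B := by
  have hc : ContinuousOn (fun p : ℝ × ℝ => ff (p.1 * p.2) - Mz (p.1 * p.2)) (Icc a b ×ˢ Icc T T') := by
    intro p hp
    have hp0 : 0 < p.1 * p.2 := mul_pos (ha.trans_le hp.1.1) (hT.trans_le hp.2.1)
    have h1 : ContinuousAt (fun p : ℝ × ℝ => p.1 * p.2) p := (continuous_fst.mul continuous_snd).continuousAt
    have h2 : ContinuousAt (fun p : ℝ × ℝ => Mz (p.1 * p.2)) p :=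
      ContinuousAt.comp (g := Mz) (f := fun p : ℝ × ℝ => p.1 * p.2) (Mz_contAt hp0) h1
    have h3 : ContinuousAt (fun p : ℝ × ℝ => ff (p.1 * p.2)) p :=
      ContinuousAt.comp (g := ff) (f := fun p : ℝ × ℝ => p.1 * p.2) ff_cont.continuousAt h1
    exact (h3.sub h2).continuousWithinAt
  obtain ⟨B, hB⟩ := (isCompact_Icc.prod isCompact_Icc).exists_bound_of_continuousOn hc
  exact ⟨B, fun x hx t ht => hB (x, t) ⟨hx, ht⟩⟩

theorem opl (h2 : S_OP) {a b : ℝ} (ha : 0 < a) (hab : a < b) : ∃ C : ℝ, 0 < C ∧ ∀ T Λ : ℝ, 1 ≤ T →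
    (∀ y, ‖eh T y‖ ≤ Λ) → ∀ F : ℝ → ℂ, Measurable F →
    IntegrableOn (fun t => ‖F t‖ ^ 2) (Icc T (2 * T)) → ∀ S : ℝ, T ≤ S → S ≤ 2 * T →
    ∫⁻ x in Icc a b, ENNReal.ofReal
      (‖∫ t in T..S, F t * ((ff (x * t) - Mz (x * t) : ℝ) : ℂ)‖ ^ 2) ≤
      ENNReal.ofReal (C * Λ ^ 2 * (T * ∫ t in T..(2 * T), ‖F t‖ ^ 2)) := by
  obtain ⟨C, hC, h⟩ := h2 a b ha hab
  refine ⟨C, hC, fun T Λ hT hΛ F hF hI S hS1 hS2 => ?_⟩
  have hT0 : 0 < T := by linarith
  have hTT : T ≤ 2 * T := by linarith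
  set F' : ℝ → ℂ := (Icc T S).indicator F with hF'
  have hF'm : Measurable F' := hF.indicator measurableSet_Icc
  have hle : ∀ t, ‖F' t‖ ^ 2 ≤ ‖F t‖ ^ 2 := fun t => by
    rw [hF']
    by_cases ht : t ∈ Icc T S
    · rw [indicator_of_mem ht]
    · rw [indicator_of_notMem ht, norm_zero, zero_pow two_ne_zero]
      positivity
  have hI' : IntegrableOn (fun t => ‖F' t‖ ^ 2) (Icc T (2 * T)) := by
    refine Integrable.mono' hI (hF'm.norm.pow_const 2).aestronglyMeasurable
      (Eventually.of_forall fun t => ?_)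
    rw [Real.norm_eq_abs, abs_of_nonneg (by positivity)]
    exact hle t
  have h1 := h T Λ hT hΛ F' hF'm hI'
  have e1 : ∀ x : ℝ, ∫ t in T..(2 * T), F' t * ((ff (x * t) - Mz (x * t) : ℝ) : ℂ) =
      ∫ t in T..S, F t * ((ff (x * t) - Mz (x * t) : ℝ) : ℂ) := by
    intro x
    rw [intervalIntegral.integral_of_le hTT, intervalIntegral.integral_of_le hS1]
    have e2 : (fun t => F' t * ((ff (x * t) - Mz (x * t) : ℝ) : ℂ)) =
        (Icc T S).indicator (fun t => F t * ((ff (x * t) - Mz (x * t) : ℝ) : ℂ)) := by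
      funext t
      rw [hF']
      by_cases ht : t ∈ Icc T S
      · rw [indicator_of_mem ht, indicator_of_mem ht]
      · rw [indicator_of_notMem ht, indicator_of_notMem ht, zero_mul]
    rw [e2, setIntegral_indicator measurableSet_Icc]
    congr 2
    ext t
    simp only [mem_inter_iff, mem_Ioc, mem_Icc]
    constructor
    · rintro ⟨⟨h1, _⟩, _, h4⟩
      exact ⟨h1, h4⟩
    · rintro ⟨h1, h4⟩
      exact ⟨⟨h1, h4.trans hS2⟩, h1.le, h4⟩
  simp_rw [e1] at h1
  have e3 : ∫ t in T..(2 * T), ‖F' t‖ ^ 2 ≤ ∫ t in T..(2 * T), ‖F t‖ ^ 2 := by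
    refine intervalIntegral.integral_mono hTT ?_ ?_ fun t => hle t
    · exact (intervalIntegrable_iff_integrableOn_Icc_of_le hTT).mpr hI'
    · exact (intervalIntegrable_iff_integrableOn_Icc_of_le hTT).mpr hI
  -- integrability in `x`
  obtain ⟨B, hB⟩ := dif_bound (a := a) (b := b) (T := T) (T' := 2 * T) ha hT0
  have hjm : Measurable (Function.uncurry fun (x t : ℝ) =>
      F t * ((ff (x * t) - Mz (x * t) : ℝ) : ℂ)) := by
    have k1 : Measurable fun p : ℝ × ℝ => p.1 * p.2 := measurable_fst.mul measurable_snd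
    have k2 : Measurable fun p : ℝ × ℝ => F p.2 := hF.comp measurable_snd
    have k3 : Measurable fun p : ℝ × ℝ => ff (p.1 * p.2) - Mz (p.1 * p.2) :=
      (ff_cont.measurable.comp k1).sub (Mz_meas.comp k1)
    exact k2.mul (Complex.measurable_ofReal.comp k3)
  have hm : Measurable fun x : ℝ =>
      ‖∫ t in T..S, F t * ((ff (x * t) - Mz (x * t) : ℝ) : ℂ)‖ ^ 2 :=
    ((meas_int hjm hS1).norm).pow_const 2
  have hFi : IntervalIntegrable (fun t => ‖F t‖) volume T S := by
    rw [intervalIntegrable_iff_integrableOn_Icc_of_le hS1]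
    exact ((int_of_sq hF hI).mono_set (Icc_subset_Icc_right hS2)).norm
  have hbd : ∀ x ∈ Icc a b, ‖‖∫ t in T..S, F t * ((ff (x * t) - Mz (x * t) : ℝ) : ℂ)‖ ^ 2‖ ≤
      (∫ t in T..S, ‖F t‖ * B) ^ 2 := by
    intro x hx
    rw [Real.norm_eq_abs, abs_of_nonneg (by positivity)]
    refine pow_le_pow_left₀ (norm_nonneg _) ?_ 2
    refine intervalIntegral.norm_integral_le_of_norm_le hS1 ?_ (hFi.mul_const B)
    refine Eventually.of_forall fun t ht => ?_
    rw [norm_mul, Complex.norm_real, Real.norm_eq_abs]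
    exact mul_le_mul_of_nonneg_left (hB x hx t ⟨ht.1.le, ht.2.trans hS2⟩) (norm_nonneg _)
  have hint : IntegrableOn (fun x : ℝ =>
      ‖∫ t in T..S, F t * ((ff (x * t) - Mz (x * t) : ℝ) : ℂ)‖ ^ 2) (Icc a b) := by
    refine Measure.integrableOn_of_bounded (M := (∫ t in T..S, ‖F t‖ * B) ^ 2) ?_
      hm.aestronglyMeasurable ?_
    · rw [Real.volume_Icc]
      exact ENNReal.ofReal_ne_top
    · exact (ae_restrict_iff' measurableSet_Icc).mpr (Eventually.of_forall hbd)
  rw [← ofReal_integral_eq_lintegral_ofReal hint (Eventually.of_forall fun x => by positivity)]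
  refine ENNReal.ofReal_le_ofReal ?_
  rw [integral_Icc_eq_integral_Ioc, ← intervalIntegral.integral_of_le hab.le]
  refine h1.trans ?_
  gcongr

/-! ### the variance -/

/-- the product of the values over the other coordinates is bounded in `t` -/
theorem Pf_meas {K : ℕ} (α : Fin K → ℝ) : Measurable fun t : ℝ => ∏ j, ff (α j * t) := by
  refine Finset.measurable_prod _ fun j _ => ?_
  exact ff_cont.measurable.comp (measurable_const.mul measurable_id)

theorem Pf_cont {K : ℕ} (α : Fin K → ℝ) : Continuous fun t : ℝ => ∏ j, ff (α j * t) := by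
  refine continuous_finsetProd _ fun j _ => ?_
  exact ff_cont.comp (continuous_const.mul continuous_id)

theorem Pf_jmeas {K : ℕ} : Measurable fun p : (Fin K → ℝ) × ℝ => ∏ j, ff (p.1 j * p.2) := by
  refine Finset.measurable_prod _ fun j _ => ?_
  exact ff_cont.measurable.comp (mul_meas j)

theorem Q_eq {K : ℕ} (α : Fin K → ℝ) (t : ℝ) : Q α t = (∏ j, ff (α j * t)) ^ 2 := by
  rw [Q, Finset.prod_pow]

theorem dP_contOn {K : ℕ} {a b T T' : ℝ} (ha : 0 < a) (hT : 0 < T) {α : Fin K → ℝ}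
    (hα : α ∈ Bx K a b) : ContinuousOn (fun t => dP α t) (Icc T T') := by
  unfold dP
  refine ContinuousOn.sub (Pf_cont α).continuousOn ?_
  refine continuousOn_finsetProd _ fun j _ => ?_
  intro t ht
  have h0 : 0 < α j * t := mul_pos (ha.trans_le (hα.1 j)) (hT.trans_le ht.1)
  have h1 : ContinuousAt (fun t : ℝ => α j * t) t := (continuous_const.mul continuous_id).continuousAt
  exact (ContinuousAt.comp (g := Mz) (f := fun t : ℝ => α j * t) (Mz_contAt h0) h1).continuousWithinAt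

theorem bound_of_contOn {g : ℝ → ℝ} {T T' : ℝ} (h : ContinuousOn g (Icc T T')) :
    ∃ B : ℝ, ∀ t ∈ Icc T T', |g t| ≤ B := by
  obtain ⟨B, hB⟩ := isCompact_Icc.exists_bound_of_continuousOn h
  exact ⟨B, fun t ht => hB t ht⟩

theorem sq_int_mul {F : ℝ → ℂ} (hF : Measurable F) {T T' : ℝ}
    (h : IntegrableOn (fun t => ‖F t‖ ^ 2) (Icc T T')) {g : ℝ → ℝ} (hg : Measurable g) {B : ℝ}
    (hB : ∀ t ∈ Icc T T', |g t| ≤ B) :
    IntegrableOn (fun t => ‖F t * (g t : ℂ)‖ ^ 2) (Icc T T') := by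
  refine Integrable.mono' (h.const_mul (B ^ 2))
    ((hF.mul (Complex.measurable_ofReal.comp hg)).norm.pow_const 2).aestronglyMeasurable ?_
  refine (ae_restrict_iff' measurableSet_Icc).mpr (Eventually.of_forall fun t ht => ?_)
  rw [Real.norm_eq_abs, abs_of_nonneg (by positivity), norm_mul, Complex.norm_real,
    Real.norm_eq_abs, mul_pow, mul_comm]
  refine mul_le_mul_of_nonneg_right ?_ (by positivity)
  exact pow_le_pow_left₀ (abs_nonneg _) (hB t ht) 2

theorem varB (h2 : S_OP) (h3 : S_L4) {a b δ Cs : ℝ} (ha : 0 < a) (hab : a < b) (hCs : 0 < Cs)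
    (hsup : ∀ T y : ℝ, 1 ≤ T → ‖eh T y‖ ≤ Cs * T ^ (-δ)) (K : ℕ) : ∀ ε : ℝ, 0 < ε →
    ∃ C : ℝ, 0 < C ∧ ∀ F : ℝ → ℂ, Measurable F → ∀ T S : ℝ, 1 ≤ T → T ≤ S → S ≤ 2 * T →
      IntegrableOn (fun t => ‖F t‖ ^ 2) (Icc T (2 * T)) →
      ∫⁻ α in Bx K a b, ENNReal.ofReal (‖∫ t in T..S, F t * (dP α t : ℂ)‖ ^ 2) ≤
        ENNReal.ofReal (C * T ^ (1 - 2 * δ + ε) * ∫ t in T..(2 * T), ‖F t‖ ^ 2) := by
  induction K with
  | zero =>
    intro ε _
    refine ⟨1, one_pos, fun F _ T S _ _ _ _ => ?_⟩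
    have h1 : ∀ α : Fin 0 → ℝ, ENNReal.ofReal (‖∫ t in T..S, F t * (dP α t : ℂ)‖ ^ 2) = 0 :=
      fun α => by simp [dP]
    simp_rw [h1]
    rw [lintegral_zero]
    exact bot_le
  | succ K ih =>
    intro ε hε
    obtain ⟨C, hC, h⟩ := ih (ε / 2) (half_pos hε)
    obtain ⟨Co, hCo, ho⟩ := opl h2 ha hab
    obtain ⟨C4, hC4, h4⟩ := l4K h3 ha hab K ε hε
    obtain ⟨CM, hCM, hM⟩ := Mz_sq (b := b) ha (half_pos hε)
    have hba : 0 < b - a := by linarith
    refine ⟨2 * (Co * Cs ^ 2 * (C4 * 2 ^ ε)) + 2 * (C * (CM * 2 ^ (ε / 2)) * (b - a)), by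
      positivity, fun F hF T S hT hS1 hS2 hI => ?_⟩
    have hT0 : 0 < T := by linarith
    have hTT : T ≤ 2 * T := by linarith
    set J : ℝ := ∫ t in T..(2 * T), ‖F t‖ ^ 2 with hJ
    have hJ0 : 0 ≤ J := by
      rw [hJ]
      exact intervalIntegral.integral_nonneg hTT fun t _ => by positivity
    -- the two parts
    set u : (Fin (K + 1) → ℝ) → ℂ := fun α => ∫ t in T..S,
      (F t * ((∏ j : Fin K, ff (α j.succ * t) : ℝ) : ℂ)) * ((ff (α 0 * t) - Mz (α 0 * t) : ℝ) : ℂ)
      with hu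
    set v : (Fin (K + 1) → ℝ) → ℂ := fun α => ∫ t in T..S,
      (F t * ((Mz (α 0 * t) : ℝ) : ℂ)) * (dP (fun j : Fin K => α j.succ) t : ℂ) with hv
    have htail : Measurable fun p : (Fin (K + 1) → ℝ) × ℝ => ((fun j : Fin K => p.1 j.succ), p.2) := by
      refine Measurable.prodMk ?_ measurable_snd
      refine measurable_pi_lambda _ fun j => ?_
      exact (measurable_pi_apply j.succ).comp measurable_fst
    have hF2 : Measurable fun p : (Fin (K + 1) → ℝ) × ℝ => F p.2 := hF.comp measurable_snd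
    have hum : Measurable u := by
      refine meas_int ?_ hS1
      have k1 : Measurable fun p : (Fin (K + 1) → ℝ) × ℝ => ∏ j : Fin K, ff (p.1 j.succ * p.2) := by
        have := Measurable.comp (g := fun p : (Fin K → ℝ) × ℝ => ∏ j, ff (p.1 j * p.2))
          (f := fun p : (Fin (K + 1) → ℝ) × ℝ => ((fun j : Fin K => p.1 j.succ), p.2)) Pf_jmeas htail
        exact this
      have k2 : Measurable fun p : (Fin (K + 1) → ℝ) × ℝ => ff (p.1 0 * p.2) - Mz (p.1 0 * p.2) :=
        (ff_cont.measurable.comp (mul_meas 0)).sub (Mz_meas.comp (mul_meas 0))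
      exact (hF2.mul (Complex.measurable_ofReal.comp k1)).mul (Complex.measurable_ofReal.comp k2)
    have hvm : Measurable v := by
      refine meas_int ?_ hS1
      have k1 : Measurable fun p : (Fin (K + 1) → ℝ) × ℝ => Mz (p.1 0 * p.2) :=
        Mz_meas.comp (mul_meas 0)
      have k2 : Measurable fun p : (Fin (K + 1) → ℝ) × ℝ => dP (fun j : Fin K => p.1 j.succ) p.2 := by
        have := Measurable.comp (g := fun p : (Fin K → ℝ) × ℝ => dP p.1 p.2)
          (f := fun p : (Fin (K + 1) → ℝ) × ℝ => ((fun j : Fin K => p.1 j.succ), p.2)) dP_meas htail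
        exact this
      exact (hF2.mul (Complex.measurable_ofReal.comp k1)).mul (Complex.measurable_ofReal.comp k2)
    have hsplit : ∀ α ∈ Bx (K + 1) a b, ‖∫ t in T..S, F t * (dP α t : ℂ)‖ ^ 2 ≤
        2 * ‖u α‖ ^ 2 + 2 * ‖v α‖ ^ 2 := by
      intro α hα
      have hα' : (fun j : Fin K => α j.succ) ∈ Bx K a b := ⟨fun j => hα.1 j.succ, fun j => hα.2 j.succ⟩
      obtain ⟨B1, hB1⟩ := bound_of_contOn (Pf_cont (fun j : Fin K => α j.succ)).continuousOn (T := T) (T' := 2 * T)
      obtain ⟨B2, hB2⟩ := dif_bound (a := a) (b := b) (T := T) (T' := 2 * T) ha hT0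
      obtain ⟨B3, hB3⟩ := bound_of_contOn (dP_contOn (T' := 2 * T) ha hT0 hα')
      have hα0 : α 0 ∈ Icc a b := ⟨hα.1 0, hα.2 0⟩
      have m2 : Measurable fun t : ℝ => ff (α 0 * t) - Mz (α 0 * t) := by
        have k : Measurable fun t : ℝ => α 0 * t := measurable_const.mul measurable_id
        exact (ff_cont.measurable.comp k).sub (Mz_meas.comp k)
      have i1 : IntervalIntegrable (fun t => (F t * ((∏ j : Fin K, ff (α j.succ * t) : ℝ) : ℂ)) *
          ((ff (α 0 * t) - Mz (α 0 * t) : ℝ) : ℂ)) volume T S :=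
        int_mul (hF.mul (Complex.measurable_ofReal.comp (Pf_meas _)))
          (sq_int_mul hF hI (Pf_meas _) hB1) m2 (fun t ht => hB2 (α 0) hα0 t ht) hS1 hS2
      have m3 : Measurable fun t : ℝ => Mz (α 0 * t) :=
        Mz_meas.comp (measurable_const.mul measurable_id)
      have m4 : Measurable fun t : ℝ => dP (fun j : Fin K => α j.succ) t := by
        have := Measurable.comp (g := fun p : (Fin K → ℝ) × ℝ => dP p.1 p.2)
          (f := fun t : ℝ => ((fun j : Fin K => α j.succ), t)) dP_meas measurable_prodMk_left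
        exact this
      obtain ⟨B4, hB4⟩ : ∃ B : ℝ, ∀ t ∈ Icc T (2 * T), |Mz (α 0 * t)| ≤ B := by
        refine bound_of_contOn fun t ht => ?_
        have h0 : 0 < α 0 * t := mul_pos (ha.trans_le hα0.1) (hT0.trans_le ht.1)
        have h1 : ContinuousAt (fun t : ℝ => α 0 * t) t :=
          (continuous_const.mul continuous_id).continuousAt
        exact (ContinuousAt.comp (g := Mz) (f := fun t : ℝ => α 0 * t)
          (Mz_contAt h0) h1).continuousWithinAt
      have i2 : IntervalIntegrable (fun t => (F t * ((Mz (α 0 * t) : ℝ) : ℂ)) *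
          ((dP (fun j : Fin K => α j.succ) t : ℝ) : ℂ)) volume T S :=
        int_mul (hF.mul (Complex.measurable_ofReal.comp m3))
          (sq_int_mul hF hI m3 hB4) m4 hB3 hS1 hS2
      have e1 : ∫ t in T..S, F t * (dP α t : ℂ) = u α + v α := by
        rw [hu, hv]
        simp only
        rw [← intervalIntegral.integral_add i1 i2]
        refine intervalIntegral.integral_congr fun t _ => ?_
        rw [dP_succ]
        push_cast
        ring
      rw [e1]
      have e2 : ‖u α + v α‖ ≤ ‖u α‖ + ‖v α‖ := norm_add_le _ _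
      have e3 : ‖u α + v α‖ ^ 2 ≤ (‖u α‖ + ‖v α‖) ^ 2 := pow_le_pow_left₀ (norm_nonneg _) e2 2
      nlinarith [sq_nonneg (‖u α‖ - ‖v α‖)]
    -- the first part
    have hU : ∫⁻ α in Bx (K + 1) a b, ENNReal.ofReal (‖u α‖ ^ 2) ≤
        ENNReal.ofReal (Co * Cs ^ 2 * (C4 * 2 ^ ε) * T ^ (1 - 2 * δ + ε) * J) := by
      rw [split2 ((hum.norm.pow_const 2).ennreal_ofReal)]
      have hin : ∀ α' ∈ Bx K a b, ∫⁻ x in Icc a b,
          ENNReal.ofReal (‖u (Fin.cons x α' : Fin (K + 1) → ℝ)‖ ^ 2) ≤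
            ENNReal.ofReal (Co * (Cs * T ^ (-δ)) ^ 2 * T) *
              ∫⁻ t in Ioc T (2 * T), ENNReal.ofReal (‖F t‖ ^ 2) * ENNReal.ofReal (Q α' t) := by
        intro α' _
        obtain ⟨B1, hB1⟩ := bound_of_contOn (Pf_cont α').continuousOn (T := T) (T' := 2 * T)
        have k1 := ho T (Cs * T ^ (-δ)) hT (fun y => hsup T y hT)
          (fun t => F t * ((∏ j : Fin K, ff (α' j * t) : ℝ) : ℂ))
          (hF.mul (Complex.measurable_ofReal.comp (Pf_meas _))) (sq_int_mul hF hI (Pf_meas _) hB1)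
          S hS1 hS2
        have k2 : ∀ x : ℝ, u (Fin.cons x α' : Fin (K + 1) → ℝ) = ∫ t in T..S,
            F t * ((∏ j : Fin K, ff (α' j * t) : ℝ) : ℂ) * ((ff (x * t) - Mz (x * t) : ℝ) : ℂ) := by
          intro x
          rw [hu]
          simp only [Fin.cons_zero, Fin.cons_succ]
        simp_rw [k2]
        refine k1.trans ?_
        have k3 : Co * (Cs * T ^ (-δ)) ^ 2 * (T * ∫ t in T..(2 * T),
            ‖F t * ((∏ j : Fin K, ff (α' j * t) : ℝ) : ℂ)‖ ^ 2) =
            (Co * (Cs * T ^ (-δ)) ^ 2 * T) * ∫ t in T..(2 * T),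
            ‖F t * ((∏ j : Fin K, ff (α' j * t) : ℝ) : ℂ)‖ ^ 2 := by ring
        rw [k3, ENNReal.ofReal_mul (by positivity)]
        refine mul_le_mul' le_rfl ?_
        rw [intervalIntegral.integral_of_le hTT]
        have hfm : Measurable fun t : ℝ => ‖F t * ((∏ j : Fin K, ff (α' j * t) : ℝ) : ℂ)‖ ^ 2 :=
          (hF.mul (Complex.measurable_ofReal.comp (Pf_meas _))).norm.pow_const 2
        refine (ofReal_integral_le (fun t => by positivity) hfm).trans ?_
        refine lintegral_mono fun t => ?_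
        rw [← ENNReal.ofReal_mul (by positivity)]
        refine le_of_eq ?_
        congr 1
        rw [norm_mul, Complex.norm_real, Real.norm_eq_abs, mul_pow, sq_abs, Q_eq]
      have hQm : Measurable fun p : (Fin K → ℝ) × ℝ =>
          ENNReal.ofReal (‖F p.2‖ ^ 2) * ENNReal.ofReal (Q p.1 p.2) := by
        have k : Measurable fun p : (Fin K → ℝ) × ℝ => ‖F p.2‖ ^ 2 :=
          (hF.comp measurable_snd).norm.pow_const 2
        exact k.ennreal_ofReal.mul Q_meas.ennreal_ofReal
      have hsw : ∫⁻ α' in Bx K a b, ∫⁻ t in Ioc T (2 * T),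
          ENNReal.ofReal (‖F t‖ ^ 2) * ENNReal.ofReal (Q α' t) ≤
            ENNReal.ofReal (C4 * (2 * T) ^ ε) * ENNReal.ofReal J := by
        rw [lintegral_lintegral_swap hQm.aemeasurable]
        have k1 : ∀ t ∈ Ioc T (2 * T), ∫⁻ α' in Bx K a b,
            ENNReal.ofReal (‖F t‖ ^ 2) * ENNReal.ofReal (Q α' t) ≤
              ENNReal.ofReal (C4 * (2 * T) ^ ε) * ENNReal.ofReal (‖F t‖ ^ 2) := by
          intro t ht
          rw [lintegral_const_mul _ (Q_meas_left t).ennreal_ofReal, mul_comm]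
          refine mul_le_mul' ?_ le_rfl
          refine (h4 t (hT.trans ht.1.le)).trans (ENNReal.ofReal_le_ofReal ?_)
          refine mul_le_mul_of_nonneg_left ?_ hC4.le
          exact Real.rpow_le_rpow (by linarith [ht.1]) ht.2 hε.le
        refine (setLIntegral_mono' measurableSet_Ioc k1).trans ?_
        have k2 : Measurable fun t : ℝ => ENNReal.ofReal (‖F t‖ ^ 2) :=
          (hF.norm.pow_const 2).ennreal_ofReal
        rw [lintegral_const_mul _ k2]
        refine mul_le_mul' le_rfl (le_of_eq ?_)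
        rw [hJ, intervalIntegral.integral_of_le hTT]
        exact (ofReal_integral_eq_lintegral_ofReal (hI.mono_set Ioc_subset_Icc_self)
          (Eventually.of_forall fun t => by positivity)).symm
      calc ∫⁻ α' in Bx K a b, ∫⁻ x in Icc a b,
            ENNReal.ofReal (‖u (Fin.cons x α' : Fin (K + 1) → ℝ)‖ ^ 2)
          ≤ ∫⁻ α' in Bx K a b, ENNReal.ofReal (Co * (Cs * T ^ (-δ)) ^ 2 * T) *
              ∫⁻ t in Ioc T (2 * T), ENNReal.ofReal (‖F t‖ ^ 2) * ENNReal.ofReal (Q α' t) :=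
            setLIntegral_mono' measurableSet_Icc fun α' hα' => hin α' hα'
        _ = ENNReal.ofReal (Co * (Cs * T ^ (-δ)) ^ 2 * T) * ∫⁻ α' in Bx K a b,
              ∫⁻ t in Ioc T (2 * T), ENNReal.ofReal (‖F t‖ ^ 2) * ENNReal.ofReal (Q α' t) := by
            rw [lintegral_const_mul _ hQm.lintegral_prod_right']
        _ ≤ ENNReal.ofReal (Co * (Cs * T ^ (-δ)) ^ 2 * T) *
              (ENNReal.ofReal (C4 * (2 * T) ^ ε) * ENNReal.ofReal J) := mul_le_mul' le_rfl hsw
        _ = _ := by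
            rw [← ENNReal.ofReal_mul (by positivity), ← ENNReal.ofReal_mul (by positivity)]
            congr 1
            have e1 : T ^ (1 - 2 * δ + ε) = T ^ (-δ) * T ^ (-δ) * T * T ^ ε := by
              rw [← Real.rpow_add hT0, ← Real.rpow_add_one hT0.ne', ← Real.rpow_add hT0]
              congr 1
              ring
            rw [e1, Real.mul_rpow (by norm_num) hT0.le]
            ring
    -- the second part
    have hV : ∫⁻ α in Bx (K + 1) a b, ENNReal.ofReal (‖v α‖ ^ 2) ≤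
        ENNReal.ofReal (C * (CM * 2 ^ (ε / 2)) * (b - a) * T ^ (1 - 2 * δ + ε) * J) := by
      rw [split1 ((hvm.norm.pow_const 2).ennreal_ofReal)]
      have hin : ∀ x ∈ Icc a b, ∫⁻ α' in Bx K a b,
          ENNReal.ofReal (‖v (Fin.cons x α' : Fin (K + 1) → ℝ)‖ ^ 2) ≤
            ENNReal.ofReal (C * (CM * 2 ^ (ε / 2)) * T ^ (1 - 2 * δ + ε) * J) := by
        intro x hx
        have m3 : Measurable fun t : ℝ => Mz (x * t) :=
          Mz_meas.comp (measurable_const.mul measurable_id)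
        have hMb : ∀ t ∈ Icc T (2 * T), Mz (x * t) ^ 2 ≤ CM * (2 * T) ^ (ε / 2) := by
          intro t ht
          refine (hM x hx t (hT.trans ht.1)).trans ?_
          refine mul_le_mul_of_nonneg_left ?_ hCM.le
          exact Real.rpow_le_rpow (by linarith [ht.1]) ht.2 (half_pos hε).le
        have hMb' : ∀ t ∈ Icc T (2 * T), |Mz (x * t)| ≤ 1 + CM * (2 * T) ^ (ε / 2) := by
          intro t ht
          have k1 := hMb t ht
          rw [← sq_abs] at k1
          nlinarith [sq_nonneg (|Mz (x * t)| - 1)]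
        have hsq := sq_int_mul hF hI m3 hMb'
        have k1 := h (fun t => F t * ((Mz (x * t) : ℝ) : ℂ))
          (hF.mul (Complex.measurable_ofReal.comp m3)) T S hT hS1 hS2 hsq
        have k2 : ∀ α' : Fin K → ℝ, v (Fin.cons x α' : Fin (K + 1) → ℝ) = ∫ t in T..S,
            F t * ((Mz (x * t) : ℝ) : ℂ) * (dP α' t : ℂ) := by
          intro α'
          rw [hv]
          simp only [Fin.cons_zero, Fin.cons_succ]
        simp_rw [k2]
        refine k1.trans (ENNReal.ofReal_le_ofReal ?_)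
        have k3 : ∫ t in T..(2 * T), ‖F t * ((Mz (x * t) : ℝ) : ℂ)‖ ^ 2 ≤
            CM * (2 * T) ^ (ε / 2) * J := by
          rw [hJ, ← intervalIntegral.integral_const_mul]
          refine intervalIntegral.integral_mono_on hTT ?_ ?_ ?_
          · exact (intervalIntegrable_iff_integrableOn_Icc_of_le hTT).mpr hsq
          · exact ((intervalIntegrable_iff_integrableOn_Icc_of_le hTT).mpr hI).const_mul _
          · intro t ht
            rw [norm_mul, Complex.norm_real, Real.norm_eq_abs, mul_pow, sq_abs, mul_comm]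
            exact mul_le_mul_of_nonneg_right (hMb t ht) (by positivity)
        calc C * T ^ (1 - 2 * δ + ε / 2) * ∫ t in T..(2 * T), ‖F t * ((Mz (x * t) : ℝ) : ℂ)‖ ^ 2
            ≤ C * T ^ (1 - 2 * δ + ε / 2) * (CM * (2 * T) ^ (ε / 2) * J) :=
              mul_le_mul_of_nonneg_left k3 (by positivity)
          _ = _ := by
              have e1 : T ^ (1 - 2 * δ + ε) = T ^ (1 - 2 * δ + ε / 2) * T ^ (ε / 2) := by
                rw [← Real.rpow_add hT0]
                congr 1
                ring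
              rw [e1, Real.mul_rpow (by norm_num) hT0.le]
              ring
      refine (setLIntegral_mono' measurableSet_Icc hin).trans ?_
      rw [lintegral_const, Measure.restrict_apply_univ, Real.volume_Icc,
        ← ENNReal.ofReal_mul (by positivity)]
      refine ENNReal.ofReal_le_ofReal (le_of_eq ?_)
      ring
    -- conclusion
    calc ∫⁻ α in Bx (K + 1) a b, ENNReal.ofReal (‖∫ t in T..S, F t * (dP α t : ℂ)‖ ^ 2)
        ≤ ∫⁻ α in Bx (K + 1) a b, (ENNReal.ofReal 2 * ENNReal.ofReal (‖u α‖ ^ 2) +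
            ENNReal.ofReal 2 * ENNReal.ofReal (‖v α‖ ^ 2)) := by
          refine setLIntegral_mono' measurableSet_Icc fun α hα => ?_
          rw [← ENNReal.ofReal_mul (by norm_num), ← ENNReal.ofReal_mul (by norm_num),
            ← ENNReal.ofReal_add (by positivity) (by positivity)]
          exact ENNReal.ofReal_le_ofReal (hsplit α hα)
      _ = ENNReal.ofReal 2 * (∫⁻ α in Bx (K + 1) a b, ENNReal.ofReal (‖u α‖ ^ 2)) +
            ENNReal.ofReal 2 * ∫⁻ α in Bx (K + 1) a b, ENNReal.ofReal (‖v α‖ ^ 2) := by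
          have k1 : Measurable fun α => ENNReal.ofReal (‖u α‖ ^ 2) :=
            (hum.norm.pow_const 2).ennreal_ofReal
          have k2 : Measurable fun α => ENNReal.ofReal (‖v α‖ ^ 2) :=
            (hvm.norm.pow_const 2).ennreal_ofReal
          rw [lintegral_add_left (k1.const_mul _), lintegral_const_mul _ k1,
            lintegral_const_mul _ k2]
      _ ≤ ENNReal.ofReal 2 *
            ENNReal.ofReal (Co * Cs ^ 2 * (C4 * 2 ^ ε) * T ^ (1 - 2 * δ + ε) * J) +
            ENNReal.ofReal 2 *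
            ENNReal.ofReal (C * (CM * 2 ^ (ε / 2)) * (b - a) * T ^ (1 - 2 * δ + ε) * J) :=
          add_le_add (mul_le_mul' le_rfl hU) (mul_le_mul' le_rfl hV)
      _ = _ := by
          rw [← ENNReal.ofReal_mul (by norm_num), ← ENNReal.ofReal_mul (by norm_num),
            ← ENNReal.ofReal_add (by positivity) (by positivity)]
          congr 1
          ring

theorem integral_le_of_lintegral {X : Type*} [MeasurableSpace X] {μ : Measure X} {f : X → ℝ}
    (hf : ∀ x, 0 ≤ f x) (hm : Measurable f) {R : ℝ} (hR : 0 ≤ R)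
    (h : ∫⁻ x, ENNReal.ofReal (f x) ∂μ ≤ ENNReal.ofReal R) : ∫ x, f x ∂μ ≤ R := by
  rw [integral_eq_lintegral_of_nonneg_ae (Eventually.of_forall hf) hm.aestronglyMeasurable]
  exact ENNReal.toReal_le_of_le_ofReal hR h

theorem t_VAR (h1 : S_SUP) (h2 : S_OP) (h3 : S_L4) : S_VAR := by
  obtain ⟨δ, Cs, hδ, hδ1, hCs, hsup⟩ := h1
  refine ⟨δ, hδ, hδ1, fun K a b ε ha hab hε => ?_⟩
  obtain ⟨C1, hC1, k1⟩ := varA h3 ha hab K ε hε
  obtain ⟨C2, hC2, k2⟩ := varB h2 h3 ha hab hCs hsup K ε hε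
  refine ⟨max C1 C2, lt_max_of_lt_left hC1, fun t ht => ?_, fun F hF T S hT hS1 hS2 hI => ?_⟩
  · have ht0 : 0 < t := by linarith
    have hm : Measurable fun α : Fin K → ℝ => dP α t ^ 2 := (dP_meas_left t).pow_const 2
    refine (integral_le_of_lintegral (fun α => by positivity) hm (by positivity) (k1 t ht)).trans ?_
    exact mul_le_mul_of_nonneg_right (le_max_left _ _) (by positivity)
  · have hT0 : 0 < T := by linarith
    have hjm : Measurable (Function.uncurry fun (α : Fin K → ℝ) (t : ℝ) => F t * (dP α t : ℂ)) :=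
      (hF.comp measurable_snd).mul (Complex.measurable_ofReal.comp dP_meas)
    have hm : Measurable fun α : Fin K → ℝ => ‖∫ t in T..S, F t * (dP α t : ℂ)‖ ^ 2 :=
      ((meas_int hjm hS1).norm).pow_const 2
    have hJ0 : 0 ≤ ∫ t in T..(2 * T), ‖F t‖ ^ 2 :=
      intervalIntegral.integral_nonneg (by linarith) fun t _ => by positivity
    refine (integral_le_of_lintegral (fun α => by positivity) hm (by positivity)
      (k2 F hF T S hT hS1 hS2 hI)).trans ?_
    refine mul_le_mul_of_nonneg_right ?_ hJ0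
    exact mul_le_mul_of_nonneg_right (le_max_right _ _) (by positivity)

end Pool.Agent.K1H9.DL
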